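import Mathlib
import Pool.Agent.Helper104.GirthMain

open MeasureTheory Set
open scoped RealInnerProductSpace Pointwise

namespace Pool.Agent.Results.MP_17e2c6_gt.GirthNotBright

/-- Euclidean space of dimension `n`. -/
abbrev E (n : ℕ) := EuclideanSpace ℝ (Fin n)

/-- A convex body: a compact convex set with nonempty interior. -/
structure IsConvexBody {n : ℕ} (K : Set (E n)) : Prop where
  convex : Convex ℝ K
  compact : IsCompact K
  interior_nonempty : (interior K).Nonempty

/-- The orthogonal projection `K | S` of `K` onto the subspace `S = range ι`, read in the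
orthonormal coordinates which the linear isometry `ι` puts on `S`. -/
def proj {m n : ℕ} (ι : E m →ₗᵢ[ℝ] E n) (K : Set (E n)) : Set (E m) :=
  {y | ∃ x ∈ K, (LinearMap.range ι.toLinearMap).starProjection x = ι y}

/-- The volume of the unit ball of `ℝ^m`. -/
noncomputable def kappa (m : ℕ) : ℝ := (volume (Metric.closedBall (0 : E m) 1)).toReal

/-- Steiner's formula: `V 0, …, V m` are the intrinsic volumes of the set `M` in `ℝ^m`. -/
def IntrinsicVolumes {m : ℕ} (M : Set (E m)) (V : ℕ → ℝ) : Prop :=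
  ∀ s : ℝ, 0 ≤ s → (volume (M + Metric.closedBall (0 : E m) s)).toReal =
    ∑ j ∈ Finset.range (m + 1), kappa (m - j) * V j * s ^ (m - j)

/-- Constant `i`-girth: `V_i (K | S)` is the same for all hyperplanes `S` through the origin. -/
def ConstantGirth {n : ℕ} (i : ℕ) (K : Set (E n)) : Prop :=
  ∃ c : ℝ, ∀ ι : E (n - 1) →ₗᵢ[ℝ] E n, ∃ V : ℕ → ℝ, IntrinsicVolumes (proj ι K) V ∧ V i = c

/-- Constant `i`-brightness: the `i`-dimensional Lebesgue measure of `K | S` is the same for all
`i`-dimensional subspaces `S`. -/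
def ConstantBrightness {n : ℕ} (i : ℕ) (K : Set (E n)) : Prop :=
  ∃ c : ℝ, ∀ ι : E i →ₗᵢ[ℝ] E n, (volume (proj ι K)).toReal = c

lemma proj_eq {m n : ℕ} (ι : E m →ₗᵢ[ℝ] E n) (K : Set (E n)) :
    proj ι K = Helper104.GirthVol.ad ι '' K := by
  have key : ∀ x, (LinearMap.range ι.toLinearMap).starProjection x = ι (Helper104.GirthVol.ad ι x) := by
    intro x
    refine Submodule.eq_starProjection_of_mem_of_inner_eq_zero (LinearMap.mem_range_self _ _) ?_
    rintro _ ⟨y, rfl⟩
    change ⟪x - ι (Helper104.GirthVol.ad ι x), ι y⟫ = 0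
    rw [inner_sub_left, LinearIsometry.inner_map_map, Helper104.GirthVol.ad_inner, sub_self]
  ext y
  constructor
  · rintro ⟨x, hx, h⟩
    rw [key] at h
    exact ⟨x, hx, ι.injective h⟩
  · rintro ⟨x, hx, rfl⟩
    exact ⟨x, hx, key x⟩

lemma kappa_pos (m : ℕ) : 0 < kappa m := 
  ENNReal.toReal_pos (Metric.measure_closedBall_pos volume _ one_pos).ne' (isCompact_closedBall _ _).measure_lt_top.ne

/-- There is a convex body in `ℝ^5` of constant `2`-girth but not of constant `2`-brightness. -/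
theorem counterexample : ∃ K : Set (E 5), IsConvexBody K ∧ ConstantGirth 2 K ∧ ¬ ConstantBrightness 2 K := by
  obtain ⟨K, h1, h2, h3, ⟨c, hc⟩, h4⟩ := Helper104.GirthVol.main_body
  refine ⟨K, ⟨h1, h2, h3⟩, ⟨c / kappa 2, fun ι => ?_⟩, ?_⟩
  · obtain ⟨a, ha, ha2⟩ := hc ι
    refine ⟨fun j => a (4 - j) / kappa (4 - j), fun s hs => ?_, ?_⟩
    · rw [proj_eq]
      refine (ha s hs).trans ?_
      have k0 := (kappa_pos 0).ne'
      have k1 := (kappa_pos 1).ne'
      have k2 := (kappa_pos 2).ne'
      have k3 := (kappa_pos 3).ne'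
      have k4 := (kappa_pos 4).ne'
      simp only [Finset.sum_range_succ, Finset.sum_range_zero]
      norm_num
      rw [mul_div_cancel₀ _ k0, mul_div_cancel₀ _ k1, mul_div_cancel₀ _ k2, mul_div_cancel₀ _ k3, mul_div_cancel₀ _ k4]
      ring
    · change a 2 / kappa 2 = _
      rw [ha2]
  · rintro ⟨d, hd⟩
    have e1 := hd Helper104.GirthVol.ι1
    have e0 := hd Helper104.GirthVol.ι0
    rw [proj_eq] at e0 e1
    have f1 : volume (Helper104.GirthVol.ad Helper104.GirthVol.ι1 '' K) ≠ ⊤ :=
      (h2.image (Helper104.GirthVol.ad Helper104.GirthVol.ι1).continuous).measure_lt_top.ne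
    have f0 : volume (Helper104.GirthVol.ad Helper104.GirthVol.ι0 '' K) ≠ ⊤ :=
      (h2.image (Helper104.GirthVol.ad Helper104.GirthVol.ι0).continuous).measure_lt_top.ne
    have := (ENNReal.toReal_lt_toReal f1 f0).2 h4
    rw [e0, e1] at this
    exact lt_irrefl _ this

/-- For some `n ≥ 4` and some `2 ≤ i ≤ n - 2` there is a convex body in `ℝ^n` of constant `i`-girth
which does not have constant `i`-brightness. -/
theorem result : ∃ n i : ℕ, 4 ≤ n ∧ 2 ≤ i ∧ i ≤ n - 2 ∧
    ∃ K : Set (E n), IsConvexBody K ∧ ConstantGirth i K ∧ ¬ ConstantBrightness i K :=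
  ⟨5, 2, by norm_num, by norm_num, by norm_num, counterexample⟩

end Pool.Agent.Results.MP_17e2c6_gt.GirthNotBright
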